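import Pool.Agent.helper15.LC.Spec

/-! # Row lc:MSH (MP_7c3fb3_pr) -/

set_option autoImplicit false

open Finset Filter Topology

namespace CO

open CU

theorem MSH_pair : ∀ a b c e : Bool, sg a * sg b + sg c * sg e ≤ sg (a ⊓ c) * sg (b ⊓ e) + sg (a ⊔ c) * sg (b ⊔ e) := by
  intro a b c e
  cases a <;> cases b <;> cases c <;> cases e <;> simp [sg] <;> norm_num

theorem MSH_add : ∀ a c : Bool, sg (a ⊓ c) + sg (a ⊔ c) = sg a + sg c := by
  intro a c
  cases a <;> cases c <;> simp [sg]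

theorem MSH_mono : ∀ a b c e : Bool, a ≤ c → b ≤ e → sg a + sg b - sg a * sg b ≤ sg c + sg e - sg c * sg e := by
  intro a b c e h1 h2
  rw [Bool.le_iff_imp] at h1 h2
  cases a <;> cases b <;> cases c <;> cases e <;> simp [sg] at h1 h2 ⊢ <;> norm_num

theorem MSH_HN {d n : ℕ} [NeZero n] (σ τ : Conf d n) : HN σ + HN τ ≤ HN (σ ⊓ τ) + HN (σ ⊔ τ) := by
  unfold HN
  rw [← Finset.sum_add_distrib, ← Finset.sum_add_distrib]
  refine Finset.sum_le_sum (fun x _ => ?_)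
  rw [← Finset.sum_add_distrib, ← Finset.sum_add_distrib]
  refine Finset.sum_le_sum (fun i _ => ?_)
  exact MSH_pair _ _ _ _

theorem MSH_Mg {d n : ℕ} [NeZero n] (σ τ : Conf d n) : Mg (σ ⊓ τ) + Mg (σ ⊔ τ) = Mg σ + Mg τ := by
  unfold Mg
  rw [← Finset.sum_add_distrib, ← Finset.sum_add_distrib]
  refine Finset.sum_congr rfl (fun x _ => ?_)
  exact MSH_add _ _

theorem MSH_phi_eq {d n : ℕ} [NeZero n] (σ : Conf d n) :
    2 * d * Mg σ - HN σ = ∑ x : Site d n, ∑ i : Fin d, (sg (σ x) + sg (σ (x + ev i)) - sg (σ x) * sg (σ (x + ev i))) := by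
  have h1 : ∑ x : Site d n, ∑ i : Fin d, (sg (σ x) + sg (σ (x + ev i)) - sg (σ x) * sg (σ (x + ev i))) =
      ∑ x : Site d n, ∑ i : Fin d, sg (σ x) + ∑ x : Site d n, ∑ i : Fin d, sg (σ (x + ev i)) - HN σ := by
    unfold HN
    rw [← Finset.sum_add_distrib, ← Finset.sum_sub_distrib]
    refine Finset.sum_congr rfl (fun x _ => ?_)
    rw [← Finset.sum_add_distrib, ← Finset.sum_sub_distrib]
  have h2 : ∑ x : Site d n, ∑ i : Fin d, sg (σ x) = d * Mg σ := by
    unfold Mg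
    rw [Finset.mul_sum]
    refine Finset.sum_congr rfl (fun x _ => ?_)
    rw [Finset.sum_const, Finset.card_univ, Fintype.card_fin, nsmul_eq_mul]
  have h3 : ∑ x : Site d n, ∑ i : Fin d, sg (σ (x + ev i)) = d * Mg σ := by
    rw [Finset.sum_comm]
    have h4 : ∀ i : Fin d, ∑ x : Site d n, sg (σ (x + ev i)) = Mg σ := by
      intro i
      unfold Mg
      exact Fintype.sum_equiv (Equiv.addRight (ev i)) _ _ (fun x => rfl)
    rw [Finset.sum_congr rfl (fun i _ => h4 i), Finset.sum_const, Finset.card_univ, Fintype.card_fin, nsmul_eq_mul]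
  rw [h1, h2, h3]
  ring

theorem MSH_phi {d n : ℕ} [NeZero n] (σ τ : Conf d n) (h : σ ≤ τ) : 2 * d * Mg σ - HN σ ≤ 2 * d * Mg τ - HN τ := by
  rw [MSH_phi_eq, MSH_phi_eq]
  refine Finset.sum_le_sum (fun x _ => Finset.sum_le_sum (fun i _ => ?_))
  exact MSH_mono _ _ _ _ (h x) (h (x + ev i))

theorem MSH (hSTO : STO_stmt) (hCAB : CAB_stmt) (hHHT : HHT_stmt) : MSH_stmt := by
  intro d n _ b δ h hb hδ
  have hE : ∀ (b h : ℝ) (σ : Conf d n), CWM.HH (KT b fun _ => 0) (fun _ => h) σ = b * HN σ + h * Mg σ := by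
    intro b h σ
    rw [(hHHT d n b h (fun _ => 0) σ).1]
    simp
  have haw : ∀ b h : ℝ, mT d n b h = aw (fun σ : Conf d n => Real.exp (b * HN σ + h * Mg σ)) (fun σ => sg (σ 0)) := by
    intro b h
    unfold mT ex aw
    simp only [hE]
  have hHol : Hol (fun σ : Conf d n => Real.exp (b * HN σ + h * Mg σ))
      (fun σ : Conf d n => Real.exp ((b - δ) * HN σ + (h + 2 * d * δ) * Mg σ)) := by
    refine ⟨fun σ => Real.exp_pos _, fun σ => Real.exp_pos _, ?_⟩
    intro σ τ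
    rw [← Real.exp_add, ← Real.exp_add]
    apply Real.exp_le_exp.2
    have h1 := MSH_HN σ τ
    have h2 := MSH_Mg σ τ
    have h3 := MSH_phi τ (σ ⊔ τ) le_sup_right
    have h4 := mul_le_mul_of_nonneg_left h1 hb
    have h5 := mul_le_mul_of_nonneg_left h3 hδ
    have h6 : h * (Mg (σ ⊓ τ) + Mg (σ ⊔ τ)) = h * (Mg σ + Mg τ) := by rw [h2]
    nlinarith
  have hmono : Monotone (fun σ : Conf d n => sg (σ 0)) := by
    intro σ τ hst
    have h1 := hst 0
    rw [Bool.le_iff_imp] at h1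
    show sg (σ 0) ≤ sg (τ 0)
    cases hs : σ 0 <;> cases ht : τ 0 <;> rw [hs, ht] at h1 <;> simp [sg] at h1 ⊢
  have hres := hSTO (Site d n) _ _ hHol ∅ _ hmono (fun _ => true) (fun _ => true) le_rfl
  rw [(hCAB (Site d n) _ hHol.1 ∅).2.2.2.2.1, (hCAB (Site d n) _ hHol.2.1 ∅).2.2.2.2.1] at hres
  rw [haw, haw]
  exact hres

end CO
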