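import Pool.Agent.helper15.LC.Spec

/-! # Row lc:MUP (MP_7c3fb3_pr) -/

set_option autoImplicit false

open Finset Filter Topology

namespace CO

open CU

theorem MUP_exA {V : Type} [Fintype V] [DecidableEq V] (K : V → V → ℝ) (g : V → ℝ) (f : (V → Bool) → ℝ) :
    exA K g ∅ f = ex K g f := by
  have h : (pl ∅ : Finset (V → Bool)) = univ := by
    ext σ
    simp [pl]
  unfold exA ex
  rw [h]

theorem MUP (hUPA : UPA_stmt) (hMSP : MSP_stmt) (hGKW : GKW_stmt) (hVF : CU.VF_stmt) : MUP_stmt := by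
  intro d b κ hb hκ
  obtain ⟨hms, -, hML, -⟩ := hMSP d
  obtain ⟨L, hL⟩ := hML b (κ / 2) hb (by positivity)
  have hLL := hL L le_rfl
  have hp : (0 : ℝ) < (2 * (L : ℝ) + 1) ^ d := by positivity
  have hlog : 0 < Real.log (1 + κ / 4) := Real.log_pos (by linarith)
  refine ⟨Real.log (1 + κ / 4) / (6 * (2 * (L : ℝ) + 1) ^ d), by positivity, ?_⟩
  filter_upwards [eventually_ge_atTop (2 * L)] with n hnL h hh0 hh
  have hT : 0 ≤ Real.log (1 + κ / 4) / (6 * (2 * (L : ℝ) + 1) ^ d) := by positivity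
  obtain ⟨h1, -⟩ := hUPA d (n + 3) L (by omega) b h (Real.log (1 + κ / 4) / (6 * (2 * (L : ℝ) + 1) ^ d))
    (fun _ => 0) hb hh0 (fun _ => le_refl _) (by simpa using hT) hh
  have hVF' : ExD b (Box L 0) (fun σ : Conf d (n + 3) => sg (σ 0)) = CS.ML d b L := hVF d b L n hnL
  have h2 := h1 ∅ 0 (by simp)
  rw [MUP_exA, hVF'] at h2
  have e1 : 6 * (Real.log (1 + κ / 4) / (6 * (2 * (L : ℝ) + 1) ^ d)) * (2 * (L : ℝ) + 1) ^ d =
      Real.log (1 + κ / 4) := by
    field_simp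
  rw [e1, Real.exp_log (by linarith)] at h2
  have h3 : mT d (n + 3) b h = ex (KT b fun _ => 0) (fun _ => h) fun σ : Conf d (n + 3) => sg (σ 0) := rfl
  rw [h3]
  linarith

end CO
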